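import Pool.Agent.H343.Dv.Main

/-!
# MP_98e62b_co: prime powers `n` with degree 2 Davenport constant larger than `n`
-/

set_option autoImplicit false

namespace Pool.Agent.H343.Dv

lemma not_sq_lift {d n x : ℕ} (h : d ∣ n) (hx : ¬ IsSquare (x : ZMod d)) :
    ¬ IsSquare (x : ZMod n) := fun hs => hx (by
  have := hs.map (ZMod.castHom h (ZMod d))
  rwa [map_natCast] at this)

lemma crit {p r m s : ℕ} (hp : p.Prime) (hp2 : p ≠ 2) (hm1 : 1 ≤ m) (hm : m + 1 ≤ p ^ r)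
    (hpm : ¬ p ∣ m)
    (hs : ∀ j, 2 ≤ j → j ≤ s → ¬ IsSquare (((m ^ 2 - 1) * j + 1 : ℕ) : ZMod (p ^ r))) :
    p ^ r - m + s ≤ dav (p ^ r) := by
  have h := main (s := s) hp hp2 hm hpm hm1 (fun j h1 h2 h3 => hs j h1 h2 (by
    rw [Nat.cast_add, Nat.cast_mul, Nat.cast_sub (Nat.one_le_pow _ _ hm1)]
    push_cast
    convert h3 using 1
    ring))
  omega

lemma two {p r : ℕ} (hp : p.Prime) (hp2 : p ≠ 2) (h3 : 3 ≤ p ^ r)
    (h7 : ¬ IsSquare (7 : ZMod (p ^ r))) (h10 : ¬ IsSquare (10 : ZMod (p ^ r))) :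
    p ^ r + 1 ≤ dav (p ^ r) := by
  have h := crit (m := 2) (s := 3) hp hp2 (by norm_num) h3
    (fun h => hp2 ((Nat.prime_dvd_prime_iff_eq hp Nat.prime_two).1 h)) (fun j h1 h2 => by
      obtain rfl | rfl : j = 2 ∨ j = 3 := by omega
      · simpa using h7
      · simpa using h10)
  omega

lemma two' {p r : ℕ} (hp : p.Prime) (hp2 : p ≠ 2) (h3 : 3 ≤ p ^ r)
    (h7 : ¬ IsSquare (7 : ZMod (p ^ r))) (h10 : ¬ IsSquare (10 : ZMod (p ^ r)))
    (h13 : ¬ IsSquare (13 : ZMod (p ^ r))) :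
    p ^ r + 2 ≤ dav (p ^ r) := by
  have h := crit (m := 2) (s := 4) hp hp2 (by norm_num) h3
    (fun h => hp2 ((Nat.prime_dvd_prime_iff_eq hp Nat.prime_two).1 h)) (fun j h1 h2 => by
      obtain rfl | rfl | rfl : j = 2 ∨ j = 3 ∨ j = 4 := by omega
      · simpa using h7
      · simpa using h10
      · simpa using h13)
  omega

lemma three_le {p r : ℕ} (hp : 3 ≤ p) (hr : 1 ≤ r) : 3 ≤ p ^ r :=
  hp.trans (Nat.le_self_pow (by omega) p)

lemma ns13 : ¬ IsSquare (11 : ZMod 13) := by decide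

lemma sq7 : IsSquare (4 : ZMod 7) := ⟨2, by decide⟩

lemma inf : {p : ℕ | p.Prime ∧ ∀ r, 1 ≤ r → p ^ r + 2 ≤ dav (p ^ r)}.Infinite := by
  have hu : IsUnit ((11 : ℕ) : ZMod 3640) := (ZMod.isUnit_iff_coprime 11 3640).2 (by norm_num)
  refine (Nat.infinite_setOfPred_prime_and_eq_mod hu).mono ?_
  rintro p ⟨hp, h⟩
  have h0 : p % 3640 = 11 := by
    have := (ZMod.natCast_eq_natCast_iff' p 11 3640).1 h
    simpa using this
  have : Fact p.Prime := ⟨hp⟩
  have f5 : Fact (Nat.Prime 5) := ⟨by norm_num⟩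
  have f7 : Fact (Nat.Prime 7) := ⟨by norm_num⟩
  have f13 : Fact (Nat.Prime 13) := ⟨by norm_num⟩
  have hp2 : p ≠ 2 := by omega
  have c5 : ((p : ℕ) : ZMod 5) = 1 := by
    rw [← Nat.cast_one, ZMod.natCast_eq_natCast_iff']; omega
  have c7 : ((p : ℕ) : ZMod 7) = 4 := by
    rw [show (4 : ZMod 7) = ((4 : ℕ) : ZMod 7) by norm_num, ZMod.natCast_eq_natCast_iff']; omega
  have c13 : ((p : ℕ) : ZMod 13) = 11 := by
    rw [show (11 : ZMod 13) = ((11 : ℕ) : ZMod 13) by norm_num, ZMod.natCast_eq_natCast_iff']; omega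
  have s2 : ¬ IsSquare (2 : ZMod p) := by
    rw [ZMod.exists_sq_eq_two_iff hp2]; omega
  have s5 : IsSquare ((5 : ℕ) : ZMod p) := by
    rw [← ZMod.exists_sq_eq_prime_iff_of_mod_four_eq_one (p := 5) (q := p) (by norm_num) hp2, c5]
    exact ⟨1, by norm_num⟩
  have s7 : ¬ IsSquare ((7 : ℕ) : ZMod p) := by
    rw [ZMod.exists_sq_eq_prime_iff_of_mod_four_eq_three (p := p) (q := 7) (by omega) (by norm_num)
      (by omega), not_not, c7]
    exact sq7
  have s13 : ¬ IsSquare ((13 : ℕ) : ZMod p) := by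
    rw [← ZMod.exists_sq_eq_prime_iff_of_mod_four_eq_one (p := 13) (q := p) (by norm_num) hp2, c13]
    exact ns13
  have s10 : ¬ IsSquare ((10 : ℕ) : ZMod p) := by
    intro h10
    obtain ⟨x, hx⟩ := h10
    obtain ⟨u, hu'⟩ := s5
    have hu0 : u ≠ 0 := by
      rintro rfl
      rw [mul_zero, ZMod.natCast_eq_zero_iff] at hu'
      have := Nat.le_of_dvd (by norm_num) hu'
      omega
    apply s2
    refine ⟨x / u, ?_⟩
    have h5 : (5 : ZMod p) = u * u := by simpa using hu'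
    have h10 : (10 : ZMod p) = x * x := by simpa using hx
    rw [div_mul_div_comm, eq_div_iff (mul_ne_zero hu0 hu0), ← h10, ← h5]
    norm_num
  refine ⟨hp, fun r hr => ?_⟩
  have hd : p ∣ p ^ r := dvd_pow_self p (by omega)
  exact two' hp hp2 (three_le (by omega) hr) (by simpa using not_sq_lift hd s7)
    (by simpa using not_sq_lift hd s10) (by simpa using not_sq_lift hd s13)

lemma lift {q p r : ℕ} (x : ℕ) (k : ℕ) (hq : q = p ^ k) (hr : k ≤ r)
    (hx : ¬ IsSquare (x : ZMod q)) : ¬ IsSquare (x : ZMod (p ^ r)) := by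
  subst hq
  exact not_sq_lift (pow_dvd_pow p hr) hx

lemma c5 (r : ℕ) (hr : 2 ≤ r) : 5 ^ r + 2 ≤ dav (5 ^ r) :=
  two' (by norm_num) (by norm_num) (three_le (by norm_num) (by omega))
    (by simpa using lift (q := 25) 7 2 (by norm_num) hr (by decide))
    (by simpa using lift (q := 25) 10 2 (by norm_num) hr (by decide))
    (by simpa using lift (q := 25) 13 2 (by norm_num) hr (by decide))

lemma c7 (r : ℕ) (hr : 2 ≤ r) : 7 ^ r + 2 ≤ dav (7 ^ r) :=
  two' (by norm_num) (by norm_num) (three_le (by norm_num) (by omega))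
    (by simpa using lift (q := 49) 7 2 (by norm_num) hr (by decide))
    (by simpa using lift (q := 49) 10 2 (by norm_num) hr (by decide))
    (by simpa using lift (q := 49) 13 2 (by norm_num) hr (by decide))

lemma c11 (r : ℕ) (hr : 1 ≤ r) : 11 ^ r + 2 ≤ dav (11 ^ r) :=
  two' (by norm_num) (by norm_num) (three_le (by norm_num) (by omega))
    (by simpa using lift (q := 11) 7 1 (by norm_num) hr (by decide))
    (by simpa using lift (q := 11) 10 1 (by norm_num) hr (by decide))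
    (by simpa using lift (q := 11) 13 1 (by norm_num) hr (by decide))

lemma c17 (r : ℕ) (hr : 1 ≤ r) : 17 ^ r + 1 ≤ dav (17 ^ r) :=
  two (by norm_num) (by norm_num) (three_le (by norm_num) (by omega))
    (by simpa using lift (q := 17) 7 1 (by norm_num) hr (by decide))
    (by simpa using lift (q := 17) 10 1 (by norm_num) hr (by decide))

lemma c23 (r : ℕ) (hr : 1 ≤ r) : 23 ^ r + 1 ≤ dav (23 ^ r) :=
  two (by norm_num) (by norm_num) (three_le (by norm_num) (by omega))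
    (by simpa using lift (q := 23) 7 1 (by norm_num) hr (by decide))
    (by simpa using lift (q := 23) 10 1 (by norm_num) hr (by decide))

lemma c29 (r : ℕ) (hr : 1 ≤ r) : 29 ^ r + 1 ≤ dav (29 ^ r) := by
  have h3 : 29 ≤ 29 ^ r := Nat.le_self_pow (by omega) 29
  have h := crit (p := 29) (r := r) (m := 4) (s := 5) (by norm_num) (by norm_num) (by norm_num)
    (by omega) (by norm_num) (fun j h1 h2 => by
      refine lift (q := 29) _ 1 (by norm_num) hr ?_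
      interval_cases j <;> decide)
  omega

end Pool.Agent.H343.Dv

namespace Pool.Agent.Results.MP_98e62b_co.PrimePowers

open Pool.Agent.H343.Dv

theorem result :
    (∀ p r m s : ℕ, p.Prime → p ≠ 2 → 1 ≤ m → m + 1 ≤ p ^ r → ¬ p ∣ m →
      (∀ j, 2 ≤ j → j ≤ s → ¬ IsSquare (((m ^ 2 - 1) * j + 1 : ℕ) : ZMod (p ^ r))) →
      p ^ r - m + s ≤ dav (p ^ r)) ∧
    (∀ p r : ℕ, p.Prime → p ≠ 2 → 1 ≤ r → ¬ IsSquare (7 : ZMod (p ^ r)) →
      ¬ IsSquare (10 : ZMod (p ^ r)) → p ^ r + 1 ≤ dav (p ^ r)) ∧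
    (∀ r, 2 ≤ r → 5 ^ r + 2 ≤ dav (5 ^ r)) ∧
    (∀ r, 2 ≤ r → 7 ^ r + 2 ≤ dav (7 ^ r)) ∧
    (∀ r, 1 ≤ r → 11 ^ r + 2 ≤ dav (11 ^ r)) ∧
    (∀ r, 1 ≤ r → 17 ^ r + 1 ≤ dav (17 ^ r)) ∧
    (∀ r, 1 ≤ r → 23 ^ r + 1 ≤ dav (23 ^ r)) ∧
    (∀ r, 1 ≤ r → 29 ^ r + 1 ≤ dav (29 ^ r)) ∧
    {p : ℕ | p.Prime ∧ ∀ r, 1 ≤ r → p ^ r + 2 ≤ dav (p ^ r)}.Infinite :=
  ⟨fun _ _ _ _ hp hp2 hm1 hm hpm hs => crit hp hp2 hm1 hm hpm hs,
    fun p r hp hp2 hr h7 h10 => two hp hp2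
      (three_le (by have := hp.two_le; omega) hr) h7 h10,
    c5, c7, c11, c17, c23, c29, inf⟩

end Pool.Agent.Results.MP_98e62b_co.PrimePowers
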